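import Pool.Agent.Q62.VW.All

/-!
# MP_3d36e1_mp: the root of the Thomas-Fermi-von Weizsacker density is in general not convex

Both questions are answered in the negative. For every `p > 3/2` and all `A, γ, z, lam > 0` the
answer is no for the parameters `(A, k γ, p, k z, lam)` as soon as `k` is large: the minimiser
`ρ` of the TFW energy with `∫ ρ ≤ lam` does not have the form `√ρ = f(|x|)` with `f` convex on
`[0, ∞)`; in particular not with `f` log convex.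
-/

open MeasureTheory Filter Topology Set
open scoped ContDiff ENNReal

namespace Pool.Agent.Results.MP_3d36e1_mp.NotConvex

/-- `ℝ³` -/
abbrev E3 := EuclideanSpace ℝ (Fin 3)

/-- `G` is the weak gradient of `ψ` on `ℝ³` -/
def WeakGrad (ψ : E3 → ℝ) (G : E3 → E3) : Prop :=
  ∀ φ : E3 → ℝ, ContDiff ℝ ∞ φ ∧ HasCompactSupport φ → ∀ i : Fin 3,
    ∫ x, ψ x * fderiv ℝ φ x (EuclideanSpace.single i 1) = - ∫ x, G x i * φ x

/-- the Coulomb energy `D(ρ, ρ) = 1/2 ∫∫ ρ(x) ρ(y) / |x - y| dx dy` -/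
noncomputable def coulomb (ρ : E3 → ℝ) : ℝ :=
  1 / 2 * ∫ q : E3 × E3, ρ q.1 * ρ q.2 / ‖q.1 - q.2‖

/-- admissible densities: `ρ ≥ 0`, `ρ ∈ L¹ ∩ L^p`, `D(ρ, ρ) < ∞`, and `G ∈ L²` is the weak gradient
of `√ρ` -/
def Admissible (p : ℝ) (ρ : E3 → ℝ) (G : E3 → E3) : Prop :=
  (∀ x, 0 ≤ ρ x) ∧ Integrable ρ ∧ Integrable (fun x => ρ x ^ p) ∧
    Integrable (fun q : E3 × E3 => ρ q.1 * ρ q.2 / ‖q.1 - q.2‖) ∧ MemLp G 2 ∧
    WeakGrad (fun x => √(ρ x)) G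

/-- the TFW energy of `ρ`, where `G = ∇ √ρ` -/
noncomputable def tfw (A γ p z : ℝ) (ρ : E3 → ℝ) (G : E3 → E3) : ℝ :=
  A * (∫ x, ‖G x‖ ^ 2) + γ / p * (∫ x, ρ x ^ p) - (∫ x, z / ‖x‖ * ρ x) + coulomb ρ

/-- `ρ` (with `G = ∇ √ρ`) minimises the TFW energy among the admissible densities with
`∫ ρ ≤ lam` -/
def IsMinimiser (A γ p z lam : ℝ) (ρ : E3 → ℝ) (G : E3 → E3) : Prop :=
  Admissible p ρ G ∧ ∫ x, ρ x ≤ lam ∧
    ∀ ρ' G', Admissible p ρ' G' → ∫ x, ρ' x ≤ lam → tfw A γ p z ρ G ≤ tfw A γ p z ρ' G'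

/-- For all `A, γ, z, lam > 0`, `p > 3/2` and all large `k`: the root of a minimiser for the
parameters `A, k γ, p, k z, lam` is neither convex nor log convex as a function of `r = |x|`. -/
theorem result (A γ z lam p : ℝ) (hA : 0 < A) (hγ : 0 < γ) (hz : 0 < z) (hl : 0 < lam)
    (hp : 3 / 2 < p) :
    ∃ k₀ : ℝ, 0 < k₀ ∧ ∀ k, k₀ ≤ k → ∀ ρ G, IsMinimiser A (k * γ) p (k * z) lam ρ G →
      (¬ ∃ f : ℝ → ℝ, ConvexOn ℝ (Ici 0) f ∧ ∀ᵐ x, √(ρ x) = f ‖x‖) ∧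
      ¬ ∃ f : ℝ → ℝ, (∀ r, 0 ≤ r → 0 < f r) ∧ ConvexOn ℝ (Ici 0) (fun r => Real.log (f r)) ∧
        ∀ᵐ x, √(ρ x) = f ‖x‖ := by
  obtain ⟨k₀, hk0, hk⟩ := Pool.Agent.Q62.VW.main_all A γ z lam p hA hγ hz hl hp
  have hadm : ∀ ρ G, Admissible p ρ G ↔ Pool.Agent.Q62.VW.Adm p ρ G := fun ρ G =>
    ⟨fun h => ⟨h.1, h.2.1, h.2.2.1, h.2.2.2.1, h.2.2.2.2.1, h.2.2.2.2.2⟩,
      fun h => ⟨h.nonneg, h.int, h.intp, h.intD, h.gradL2, h.weak⟩⟩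
  refine ⟨k₀, hk0, fun k hk1 ρ G hmin => ?_⟩
  have hmin' : Pool.Agent.Q62.VW.IsMin A (k * γ) p (k * z) lam ρ G :=
    ⟨(hadm ρ G).1 hmin.1, hmin.2.1, fun ρ' G' h h' => hmin.2.2 ρ' G' ((hadm ρ' G').2 h) h'⟩
  have h1 := hk k hk1 ρ G hmin'
  refine ⟨h1, ?_⟩
  rintro ⟨f, hf0, hf, hρ⟩
  refine h1 ⟨f, ?_, hρ⟩
  have h2 : ConvexOn ℝ (Ici 0) (fun r => Real.exp (Real.log (f r))) := by
    refine ⟨convex_Ici 0, fun x hx y hy a b ha hb hab => ?_⟩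
    have h3 := hf.2 hx hy ha hb hab
    calc Real.exp (Real.log (f (a • x + b • y)))
        ≤ Real.exp (a • Real.log (f x) + b • Real.log (f y)) := Real.exp_le_exp.2 h3
      _ ≤ a • Real.exp (Real.log (f x)) + b • Real.exp (Real.log (f y)) :=
          convexOn_exp.2 (mem_univ _) (mem_univ _) ha hb hab
  exact h2.congr (fun r hr => Real.exp_log (hf0 r hr))

end Pool.Agent.Results.MP_3d36e1_mp.NotConvex
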