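import Pool.Agent.Q235.TC.Limit

set_option autoImplicit false

/-!
# The root of the TFW density need not be convex

The definitions are in `Pool/Agent/Q235/TC/Defs.lean`: `Admissible p ρ g` says that `ρ ≥ 0` is in
`L¹ ∩ L^p`, has finite Coulomb energy and `g ∈ L²` is the distributional gradient of `ρ^{1/2}`;
`energy A γ p z ρ g` is the TFW functional; `IsMinimiser A γ p z lam ρ g` says that `ρ` minimises it
among the admissible densities of mass at most `lam`; `HasConvexRoot ρ` (`HasLogConvexRoot ρ`) says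
that `ρ^{1/2}` is almost everywhere a convex (log convex) function of `|x|` on `[0,∞)`.
-/

namespace Pool.Agent.Results.MP_3d36e1_mp.RootNotConvex

open Pool.Agent.Q235.TC

/-- For every `p > 3/2` and `A > 0` there are a mass bound `lam` and `z₀` such that for all nuclear
charges `z ≥ z₀` and `γ = z`: every admissible density of mass at most `lam` with a convex radial
root has energy at least `η > 0` above that of some admissible `ρ₀` of mass at most `lam`; hence
the root of a minimiser is neither convex nor log convex. -/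
theorem result (p : ℝ) (hp : 3 / 2 < p) (A : ℝ) (hA : 0 < A) :
    ∃ lam : ℝ, 0 < lam ∧ ∃ z₀ : ℝ, 0 < z₀ ∧ ∀ z : ℝ, z₀ ≤ z →
      (∃ η : ℝ, 0 < η ∧ ∃ ρ₀ g₀, Admissible p ρ₀ g₀ ∧ ∫ x, ρ₀ x ≤ lam ∧
        ∀ ρ g, Admissible p ρ g → ∫ x, ρ x ≤ lam → HasConvexRoot ρ →
          energy A z p z ρ₀ g₀ + η ≤ energy A z p z ρ g) ∧
      ∀ ρ g, IsMinimiser A z p z lam ρ g → ¬ HasConvexRoot ρ ∧ ¬ HasLogConvexRoot ρ := by
  obtain ⟨z₀, hz₀, hmain⟩ := main hp hA
  refine ⟨lam0 p, lam0_pos hp, z₀, hz₀, fun z hz => ?_⟩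
  obtain ⟨η, hη, ρ₀, g₀, h1, h2, h3⟩ := hmain z hz
  have key : ∀ ρ g, IsMinimiser A z p z (lam0 p) ρ g → ¬ HasConvexRoot ρ := by
    rintro ρ g ⟨m1, m2, m3⟩ hc
    have e1 := m3 ρ₀ g₀ h1 h2
    have e2 := h3 ρ g m1 m2 hc
    linarith
  exact ⟨⟨η, hη, ρ₀, g₀, h1, h2, h3⟩, fun ρ g hm =>
    ⟨key ρ g hm, fun hc => key ρ g hm (logconvex_convex hc)⟩⟩

end Pool.Agent.Results.MP_3d36e1_mp.RootNotConvex
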